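import Pool.Graph.R_seed8.Results.MP_eb03ca_co.MaxCriticalRadius
import Pool.Agent.H40.CR.FQ
import Pool.Agent.H40.CR.Hex
import Pool.Agent.H40.CR.Cell

/-!
# MP_eb03ca_co: the parametric density of finite translative coverings

For every `θ ≥ 0` the minimum of `Θ(K, θ) / Θ(K, 0)` over all convex domains `K` is
`max 1 ((2 + 4 θ) / 3)`, attained by the affine-regular hexagon. In particular the largest critical
radius is `1 / 4`.
-/

set_option autoImplicit false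

open MeasureTheory Set Filter Topology
open scoped ENNReal Pointwise

namespace Pool.Agent.Results.MP_eb03ca_co.SharpParametricRatio

/-- A convex domain: a compact convex subset of the plane with nonempty interior. -/
def ConvexDomain (K : Set (ℝ × ℝ)) : Prop :=
  IsCompact K ∧ Convex ℝ K ∧ (interior K).Nonempty

/-- `D` is covered by `n` translates of `K`. -/
def Covered (K : Set (ℝ × ℝ)) (n : ℕ) (D : Set (ℝ × ℝ)) : Prop :=
  ∃ x : Fin n → ℝ × ℝ, D ⊆ ⋃ i, (fun z => x i + z) '' K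

/-- `M_n(K, θ)`: the supremum of the area of `D + θ K` over the compact convex sets `D` covered
by `n` translates of `K`. -/
noncomputable def Mn (K : Set (ℝ × ℝ)) (θ : ℝ) (n : ℕ) : ℝ≥0∞ :=
  ⨆ D ∈ {D : Set (ℝ × ℝ) | IsCompact D ∧ Convex ℝ D ∧ Covered K n D}, volume (D + θ • K)

/-- `T` is the parametric covering density `Θ(K, θ) = lim M_n(K, θ) / n`. -/
def IsTheta (K : Set (ℝ × ℝ)) (θ : ℝ) (T : ℝ≥0∞) : Prop :=
  Tendsto (fun n : ℕ => Mn K θ n / n) atTop (𝓝 T)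

/-- `c` is the critical radius `θ_c(K) = max {θ ≥ 0 : Θ(K, θ) = Θ(K, 0)}`. -/
def IsCriticalRadius (K : Set (ℝ × ℝ)) (c : ℝ) : Prop :=
  IsGreatest {θ : ℝ | 0 ≤ θ ∧ ∃ T : ℝ≥0∞, IsTheta K θ T ∧ IsTheta K 0 T} c

/-- An affine image of the regular hexagon. -/
def hexagon : Set (ℝ × ℝ) := {z | |z.1| ≤ 1 ∧ |z.2| ≤ 1 ∧ |z.1 - z.2| ≤ 1}

/-- All numbers `|det(d, e)| + θ |det(d, κ - κ')|`, where `k, k + d, k + e, k + d + e` are the
vertices of a (possibly degenerate) parallelogram contained in `K` and `κ, κ' ∈ K`. -/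
def stripValues (K : Set (ℝ × ℝ)) (θ : ℝ) : Set ℝ :=
  {x | ∃ k d e κ κ' : ℝ × ℝ, k ∈ K ∧ k + d ∈ K ∧ k + e ∈ K ∧ k + d + e ∈ K ∧ κ ∈ K ∧ κ' ∈ K ∧
    x = |d.1 * e.2 - d.2 * e.1| + θ * |d.1 * (κ - κ').2 - d.2 * (κ - κ').1|}

open Pool.Agent.Helper484.Crit Pool.Agent.H40.CR.FS

lemma covered_iff {K : Set (ℝ × ℝ)} {n : ℕ} {D : Set (ℝ × ℝ)} :
    Covered K n D ↔ CoveredBy K n D := by
  constructor
  · rintro ⟨x, hx⟩
    refine ⟨x, fun z hz => ?_⟩
    obtain ⟨i, k, hk, hkz⟩ := mem_iUnion.1 (hx hz)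
    refine ⟨i, ?_⟩
    have : z - x i = k := by rw [← hkz]; simp
    rw [this]; exact hk
  · rintro ⟨x, hx⟩
    refine ⟨x, fun z hz => ?_⟩
    obtain ⟨i, hi⟩ := hx z hz
    exact mem_iUnion.2 ⟨i, z - x i, hi, by simp⟩

lemma le_Mn {K : Set (ℝ × ℝ)} {θ : ℝ} {n : ℕ} {D : Set (ℝ × ℝ)} (h1 : IsCompact D)
    (h2 : Convex ℝ D) (h3 : CoveredBy K n D) : volume (D + θ • K) ≤ Mn K θ n :=
  le_iSup₂ (f := fun D (_ : D ∈ {D : Set (ℝ × ℝ) | IsCompact D ∧ Convex ℝ D ∧ Covered K n D}) =>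
    volume (D + θ • K)) D ⟨h1, h2, covered_iff.2 h3⟩

lemma Mn_le {K : Set (ℝ × ℝ)} {θ : ℝ} {n : ℕ} {b : ℝ≥0∞}
    (h : ∀ D : Set (ℝ × ℝ), IsCompact D → Convex ℝ D → CoveredBy K n D →
      volume (D + θ • K) ≤ b) : Mn K θ n ≤ b :=
  iSup₂_le (fun D hD => h D hD.1 hD.2.1 (covered_iff.1 hD.2.2))

lemma div_le_of {a : ℝ≥0∞} {b : ℝ} {n : ℕ} (hn : 1 ≤ n) (hb : 0 ≤ b)
    (h : a ≤ ENNReal.ofReal (b * n)) : a / n ≤ ENNReal.ofReal b := by
  have hn0 : (n : ℝ≥0∞) ≠ 0 := by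
    simp only [ne_eq, Nat.cast_eq_zero]; omega
  rw [ENNReal.div_le_iff hn0 (ENNReal.natCast_ne_top n)]
  refine h.trans (le_of_eq ?_)
  rw [ENNReal.ofReal_mul hb, ENNReal.ofReal_natCast]

lemma le_div_of {a : ℝ≥0∞} {b : ℝ} {n : ℕ} (hn : 1 ≤ n) (hb : 0 ≤ b)
    (h : ENNReal.ofReal (b * n) ≤ a) : ENNReal.ofReal b ≤ a / n := by
  have hn0 : (n : ℝ≥0∞) ≠ 0 := by
    simp only [ne_eq, Nat.cast_eq_zero]; omega
  rw [ENNReal.le_div_iff_mul_le (Or.inl hn0) (Or.inl (ENNReal.natCast_ne_top n))]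
  refine le_trans (le_of_eq ?_) h
  rw [ENNReal.ofReal_mul hb, ENNReal.ofReal_natCast]

/-- Upper bound at `θ = 0`. -/
lemma limsup_le {K : Set (ℝ × ℝ)} (hK : ConvexDomain K) {θ S : ℝ} (hθ : 0 ≤ θ) (hS : HT K θ S)
    (hS0 : 0 ≤ S) :
    limsup (fun n : ℕ => Mn K 0 n / n) atTop ≤ ENNReal.ofReal (3 * S / (2 + 4 * θ)) := by
  obtain ⟨hKc, hKv, z0, hz0⟩ := hK
  -- translate
  set K0 : Set (ℝ × ℝ) := (fun z => z - z0) '' K with hK0
  have hmem : ∀ z, z ∈ K0 ↔ z + z0 ∈ K := by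
    intro z
    rw [hK0]
    constructor
    · rintro ⟨y, hy, rfl⟩; simpa using hy
    · intro h; exact ⟨z + z0, h, by simp⟩
  have h1 : IsCompact K0 := hKc.image (by fun_prop)
  have h2 : Convex ℝ K0 := by
    intro x hx y hy a b ha hb hab
    rw [hmem] at hx hy ⊢
    have := hKv hx hy ha hb hab
    have e : a • x + b • y + z0 = a • (x + z0) + b • (y + z0) := by
      have : z0 = a • z0 + b • z0 := by rw [← add_smul, hab, one_smul]
      calc a • x + b • y + z0 = a • x + b • y + (a • z0 + b • z0) := by rw [← this]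
        _ = a • (x + z0) + b • (y + z0) := by rw [smul_add, smul_add]; abel
    rw [e]; exact this
  have h3 : (0 : ℝ × ℝ) ∈ interior K0 := by
    rw [mem_interior_iff_mem_nhds] at hz0 ⊢
    have hc : ContinuousAt (fun z : ℝ × ℝ => z + z0) 0 := by fun_prop
    have h4 : (fun z : ℝ × ℝ => z + z0) ⁻¹' K ∈ 𝓝 (0 : ℝ × ℝ) := by
      apply hc
      simpa using hz0
    have e : (fun z : ℝ × ℝ => z + z0) ⁻¹' K = K0 := by
      ext z; rw [mem_preimage, hmem]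
    rwa [e] at h4
  set G : ℝ := 3 * S / (2 + 4 * θ) with hGdef
  have hG0 : 0 ≤ G := by positivity
  have hS' : HT K0 θ S := by
    intro k d e κ κ' a1 a2 a3 a4 a5 a6
    rw [hmem] at a1 a2 a3 a4 a5 a6
    have := hS (k + z0) d e (κ + z0) (κ' + z0) a1
      (by rw [show k + z0 + d = k + d + z0 by abel]; exact a2)
      (by rw [show k + z0 + e = k + e + z0 by abel]; exact a3)
      (by rw [show k + z0 + d + e = k + d + e + z0 by abel]; exact a4) a5 a6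
    rwa [add_sub_add_right_eq_sub] at this
  have hKne : K.Nonempty := ⟨z0, interior_subset hz0⟩
  refine ENNReal.le_of_forall_pos_le_add ?_
  intro ε hε _
  obtain ⟨n0, hn0⟩ := Pool.Agent.H40.CR.FQ.gen_upper K0 h1 h2 h3 θ hθ S hS' ε
    (by exact_mod_cast hε)
  have hev : ∀ᶠ n : ℕ in atTop, Mn K 0 n / n ≤ ENNReal.ofReal (G + ε) := by
    filter_upwards [eventually_ge_atTop (max n0 1)] with n hn
    have hn1 : n0 ≤ n := le_trans (le_max_left _ _) hn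
    have hn2 : 1 ≤ n := le_trans (le_max_right _ _) hn
    apply div_le_of hn2 (by positivity)
    apply Mn_le
    intro D hD1 hD2 ⟨x, hx⟩
    have e : D + (0 : ℝ) • K = D := by
      rw [Set.zero_smul_set hKne, add_zero]
    rw [e]
    apply hn0 n hn1 D hD1 hD2
    refine ⟨fun i => x i + z0, fun z hz => ?_⟩
    obtain ⟨i, hi⟩ := hx z hz
    refine ⟨i, ?_⟩
    rw [hmem]
    have : z - (x i + z0) + z0 = z - x i := by abel
    rw [this]; exact hi
  calc limsup (fun n : ℕ => Mn K 0 n / n) atTop ≤ ENNReal.ofReal (G + ε) :=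
        limsup_le_of_le (by isBoundedDefault) hev
    _ = ENNReal.ofReal G + ε := by
        rw [ENNReal.ofReal_add hG0 ε.coe_nonneg, ENNReal.ofReal_coe_nnreal]

/-- The optimal constant. -/
lemma exists_S {K : Set (ℝ × ℝ)} (hK : ConvexDomain K) {θ : ℝ} (hθ : 0 ≤ θ) :
    ∃ G : ℝ, G = sSup (stripValues K θ) ∧ BddAbove (stripValues K θ) ∧ 0 < G ∧ HT K θ G ∧ ∀ G' < G, ∃ k d e κ κ' : ℝ × ℝ, k ∈ K ∧ k + d ∈ K ∧ k + e ∈ K ∧
      k + d + e ∈ K ∧ κ ∈ K ∧ κ' ∈ K ∧ G' < |cr d e| + θ * |cr d (κ - κ')| := by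
  obtain ⟨hKc, hKv, z0, hz0⟩ := hK
  set S : Set ℝ := {x | ∃ k d e κ κ' : ℝ × ℝ, k ∈ K ∧ k + d ∈ K ∧ k + e ∈ K ∧
      k + d + e ∈ K ∧ κ ∈ K ∧ κ' ∈ K ∧ x = |cr d e| + θ * |cr d (κ - κ')|} with hS
  obtain ⟨C, hC⟩ := hKc.isBounded.exists_norm_le
  have hcr : ∀ x y : ℝ × ℝ, |cr x y| ≤ 2 * ‖x‖ * ‖y‖ := Pool.Agent.Helper484.Crit.FS.abs_cr_le
  have hC0 : 0 ≤ C := (norm_nonneg _).trans (hC z0 (interior_subset hz0))
  have hbdd : BddAbove S := by
    refine ⟨2 * (2 * C) * (2 * C) + θ * (2 * (2 * C) * (2 * C)), ?_⟩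
    rintro x ⟨k, d, e, κ, κ', a1, a2, a3, a4, a5, a6, rfl⟩
    have hd : ‖d‖ ≤ 2 * C := by
      calc ‖d‖ = ‖(k + d) - k‖ := by simp
        _ ≤ ‖k + d‖ + ‖k‖ := norm_sub_le _ _
        _ ≤ 2 * C := by linarith [hC _ a1, hC _ a2]
    have he : ‖e‖ ≤ 2 * C := by
      calc ‖e‖ = ‖(k + e) - k‖ := by simp
        _ ≤ ‖k + e‖ + ‖k‖ := norm_sub_le _ _
        _ ≤ 2 * C := by linarith [hC _ a1, hC _ a3]
    have hk : ‖κ - κ'‖ ≤ 2 * C := (norm_sub_le _ _).trans (by linarith [hC _ a5, hC _ a6])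
    have b1 : |cr d e| ≤ 2 * (2 * C) * (2 * C) := (hcr d e).trans (by gcongr)
    have b2 : |cr d (κ - κ')| ≤ 2 * (2 * C) * (2 * C) := (hcr _ _).trans (by gcongr)
    have b3 := mul_le_mul_of_nonneg_left b2 hθ
    linarith
  obtain ⟨r, hr, hball⟩ := Metric.isOpen_iff.1 isOpen_interior z0 hz0
  have hin : ∀ z : ℝ × ℝ, ‖z‖ < r → z0 + z ∈ K := by
    intro z hz
    apply interior_subset
    apply hball
    rw [mem_ball_iff_norm]; simpa using hz
  have hpos : r / 2 * (r / 2) ∈ {x | ∃ y ∈ S, x ≤ y} := by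
    have n0 : ‖(0 : ℝ × ℝ)‖ < r := by simpa using hr
    refine ⟨_, ⟨z0, (r / 2, 0), (0, r / 2), z0, z0, ?_, ?_, ?_, ?_, ?_, ?_, rfl⟩, ?_⟩
    · have := hin 0 n0; simpa using this
    · apply hin
      rw [Prod.norm_def]; simp [abs_of_pos hr]; linarith
    · apply hin
      rw [Prod.norm_def]; simp [abs_of_pos hr]; linarith
    · rw [add_assoc]
      apply hin
      rw [Prod.norm_def]; simp [abs_of_pos hr]; linarith
    · have := hin 0 n0; simpa using this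
    · have := hin 0 n0; simpa using this
    · simp only [cr, sub_self, Prod.fst_zero, Prod.snd_zero]
      rw [mul_zero, sub_zero, abs_of_nonneg (by positivity : (0 : ℝ) ≤ r / 2 * (r / 2))]
      simp
  obtain ⟨y0, hy0, hy0'⟩ := hpos
  refine ⟨sSup S, rfl, hbdd, ?_, ?_, ?_⟩
  · have := le_csSup hbdd hy0
    have : 0 < r / 2 * (r / 2) := by positivity
    linarith
  · intro k d e κ κ' a1 a2 a3 a4 a5 a6
    exact le_csSup hbdd ⟨k, d, e, κ, κ', a1, a2, a3, a4, a5, a6, rfl⟩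
  · intro G' hG'
    obtain ⟨x, ⟨k, d, e, κ, κ', a1, a2, a3, a4, a5, a6, rfl⟩, hx⟩ := exists_lt_of_lt_csSup ⟨y0, hy0⟩ hG'
    exact ⟨k, d, e, κ, κ', a1, a2, a3, a4, a5, a6, hx⟩

lemma le_liminf_of {K : Set (ℝ × ℝ)} (hK : ConvexDomain K) {k d e κ κ' : ℝ × ℝ}
    (h1 : k ∈ K) (h2 : k + d ∈ K) (h3 : k + e ∈ K) (h4 : k + d + e ∈ K) (h5 : κ ∈ K) (h6 : κ' ∈ K)
    {θ : ℝ} (hθ : 0 ≤ θ) :
    ENNReal.ofReal (|cr d e| + θ * |cr d (κ - κ')|) ≤
      liminf (fun n : ℕ => Mn K θ n / n) atTop := by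
  refine le_liminf_of_le (by isBoundedDefault) ?_
  filter_upwards [eventually_ge_atTop 1] with n hn
  obtain ⟨D, hD1, hD2, hD3, hD4⟩ := FN.strip_lower K hK.1 hK.2.1 h1 h2 h3 h4 h5 h6 θ hθ n hn
  apply le_div_of hn (by positivity)
  rw [mul_comm]
  exact hD4.trans (le_Mn hD1 hD2 hD3)

/-- The sandwich: the densities for `θ` and for `0` are separated by the parallelograms in `K`. -/
theorem sandwich {K : Set (ℝ × ℝ)} (hK : ConvexDomain K) {θ : ℝ} (hθ : 0 ≤ θ) :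
    BddAbove (stripValues K θ) ∧ 0 < sSup (stripValues K θ) ∧
    ENNReal.ofReal ((2 + 4 * θ) / 3) * limsup (fun n : ℕ => Mn K 0 n / n) atTop ≤
      ENNReal.ofReal (sSup (stripValues K θ)) ∧
    ENNReal.ofReal (sSup (stripValues K θ)) ≤ liminf (fun n : ℕ => Mn K θ n / n) atTop := by
  obtain ⟨S, hSdef, hbdd, hS0, hS, hopt⟩ := exists_S hK hθ
  rw [← hSdef]
  have h1 := limsup_le hK hθ hS hS0.le
  refine ⟨hbdd, hS0, ?_, ?_⟩
  · calc ENNReal.ofReal ((2 + 4 * θ) / 3) * limsup (fun n : ℕ => Mn K 0 n / n) atTop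
        ≤ ENNReal.ofReal ((2 + 4 * θ) / 3) * ENNReal.ofReal (3 * S / (2 + 4 * θ)) := by gcongr
      _ = ENNReal.ofReal S := by
          rw [← ENNReal.ofReal_mul (by positivity)]
          congr 1
          field_simp
  · by_contra hcon
    push Not at hcon
    set L := liminf (fun n : ℕ => Mn K θ n / n) atTop with hL
    have hLtop : L ≠ ⊤ := ne_top_of_lt hcon
    have hlt : L.toReal < S := by
      rw [← ENNReal.ofReal_toReal hLtop, ENNReal.ofReal_lt_ofReal_iff hS0] at hcon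
      exact hcon
    obtain ⟨k, d, e, κ, κ', a1, a2, a3, a4, a5, a6, hx⟩ := hopt _ hlt
    have h3 := le_liminf_of hK a1 a2 a3 a4 a5 a6 hθ
    rw [← hL, ← ENNReal.ofReal_toReal hLtop, ENNReal.ofReal_le_ofReal_iff ENNReal.toReal_nonneg]
      at h3
    linarith

/-- The sharp inequality between the densities for `θ` and for `0`. -/
theorem ratio {K : Set (ℝ × ℝ)} (hK : ConvexDomain K) {θ : ℝ} (hθ : 0 ≤ θ) :
    ENNReal.ofReal ((2 + 4 * θ) / 3) * limsup (fun n : ℕ => Mn K 0 n / n) atTop ≤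
      liminf (fun n : ℕ => Mn K θ n / n) atTop ∧
    0 < liminf (fun n : ℕ => Mn K θ n / n) atTop ∧
    limsup (fun n : ℕ => Mn K 0 n / n) atTop < ⊤ := by
  obtain ⟨-, h1, h2, h3⟩ := sandwich hK hθ
  refine ⟨h2.trans h3, lt_of_lt_of_le (ENNReal.ofReal_pos.2 h1) h3, ?_⟩
  by_contra hcon
  rw [not_lt, top_le_iff] at hcon
  rw [hcon, ENNReal.mul_top (ENNReal.ofReal_pos.2 (by positivity)).ne'] at h2
  exact absurd h2 (not_le.2 ENNReal.ofReal_lt_top)

/-- `M_n(K, θ)` is nondecreasing in `θ` (comparison with `θ = 0`). -/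
lemma Mn_zero_le {K : Set (ℝ × ℝ)} (hK : ConvexDomain K) (θ : ℝ) (n : ℕ) : Mn K 0 n ≤ Mn K θ n := by
  obtain ⟨-, -, z0, hz0⟩ := hK
  have hz : z0 ∈ K := interior_subset hz0
  apply Mn_le
  intro D h1 h2 h3
  refine le_trans ?_ (le_Mn h1 h2 h3)
  rw [Set.zero_smul_set ⟨z0, hz⟩, add_zero]
  have e : (fun z : ℝ × ℝ => z + (-(θ • z0))) ⁻¹' D ⊆ D + θ • K := by
    intro z hzD
    exact ⟨z + -(θ • z0), hzD, θ • z0, ⟨z0, hz, rfl⟩, by simp⟩
  calc volume D = volume ((fun z : ℝ × ℝ => z + (-(θ • z0))) ⁻¹' D) :=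
        (measure_preimage_add_right volume _ D).symm
    _ ≤ _ := measure_mono e

/-- `M_n(K, θ) ≤ n vol(K + θ K)`. -/
lemma Mn_le_mul (K : Set (ℝ × ℝ)) (θ : ℝ) (n : ℕ) : Mn K θ n ≤ n * volume (K + θ • K) := by
  apply Mn_le
  rintro D - - ⟨x, hx⟩
  have hsub : D + θ • K ⊆ ⋃ i : Fin n, (fun z : ℝ × ℝ => z + (-(x i))) ⁻¹' (K + θ • K) := by
    rintro z ⟨a, ha, b, hb, rfl⟩
    obtain ⟨i, hi⟩ := hx a ha
    refine mem_iUnion.2 ⟨i, a - x i, hi, b, hb, ?_⟩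
    show a - x i + b = a + b + -(x i)
    abel
  calc volume (D + θ • K) ≤ ∑ i : Fin n, volume ((fun z : ℝ × ℝ => z + (-(x i))) ⁻¹' (K + θ • K)) :=
        (measure_mono hsub).trans (measure_iUnion_fintype_le _ _)
    _ = n * volume (K + θ • K) := by
        simp only [measure_preimage_add_right, Finset.sum_const, Finset.card_univ,
          Fintype.card_fin, nsmul_eq_mul]

/-- `M_n(K, θ)` is nondecreasing in `n`. -/
lemma Mn_le_of_le (K : Set (ℝ × ℝ)) (θ : ℝ) {m n : ℕ} (hm : 1 ≤ m) (h : m ≤ n) :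
    Mn K θ m ≤ Mn K θ n := by
  apply Mn_le
  rintro D h1 h2 ⟨x, hx⟩
  refine le_Mn h1 h2 ⟨fun i => if hi : (i : ℕ) < m then x ⟨i, hi⟩ else x ⟨0, hm⟩, fun z hz => ?_⟩
  obtain ⟨i, hi⟩ := hx z hz
  refine ⟨⟨i, i.2.trans_le h⟩, ?_⟩
  simp only [Fin.is_lt, dite_true]
  exact hi

/-- Translating `K` does not change `M_n(K, θ)`. -/
lemma Mn_translate (K : Set (ℝ × ℝ)) (z0 : ℝ × ℝ) (θ : ℝ) (n : ℕ) :
    Mn K θ n ≤ Mn ((fun z => z - z0) '' K) θ n := by
  apply Mn_le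
  rintro D h1 h2 ⟨x, hx⟩
  refine le_trans ?_ (le_Mn h1 h2 ⟨fun i => x i + z0, fun z hz => ?_⟩)
  · have hsub : D + θ • K ⊆ (fun z : ℝ × ℝ => z + (-(θ • z0))) ⁻¹'
        (D + θ • (fun z => z - z0) '' K) := by
      rintro z ⟨a, ha, _, ⟨b, hb, rfl⟩, rfl⟩
      refine ⟨a, ha, θ • (b - z0), ⟨b - z0, ⟨b, hb, rfl⟩, rfl⟩, ?_⟩
      show a + θ • (b - z0) = a + θ • b + -(θ • z0)
      rw [smul_sub]
      abel
    exact (measure_mono hsub).trans (le_of_eq (measure_preimage_add_right volume _ _))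
  · obtain ⟨i, hi⟩ := hx z hz
    refine ⟨i, z - x i, hi, ?_⟩
    show z - x i - z0 = z - (x i + z0)
    abel

/-- A covered parallelogram gives a lower bound. -/
lemma cell_le {K : Set (ℝ × ℝ)} (hKv : Convex ℝ K) {θ : ℝ} (hθ : 0 ≤ θ) {m : ℕ}
    {p d e κ κ' : ℝ × ℝ} (hcov : CoveredBy K m (FN.para p d e)) (h5 : κ ∈ K) (h6 : κ' ∈ K) :
    0 < m ∧ ENNReal.ofReal ((|cr d e| + θ * |cr d (κ - κ')|) / m) ≤
      liminf (fun n : ℕ => Mn K θ n / n) atTop := by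
  set v := |cr d e| + θ * |cr d (κ - κ')| with hv
  have hv0 : 0 ≤ v := by positivity
  have hm : 1 ≤ m := by
    by_contra hcon
    obtain ⟨x, hx⟩ := hcov
    have hp : p ∈ FN.para p d e := ⟨(0, 0), ⟨by simp, by simp⟩, by simp⟩
    obtain ⟨i, -⟩ := hx p hp
    have := i.2
    omega
  refine ⟨hm, ?_⟩
  have hm0 : (0 : ℝ) < m := by exact_mod_cast hm
  refine ENNReal.le_of_forall_pos_le_add fun ε hε _ => ?_
  have hε' : (0 : ℝ) < ε := by exact_mod_cast hε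
  have key : ∀ᶠ n : ℕ in atTop, ENNReal.ofReal (v / m - ε) ≤ Mn K θ n / n := by
    obtain ⟨n0, hn0⟩ := exists_nat_ge (v / ε)
    filter_upwards [eventually_ge_atTop (max n0 m)] with n hn
    have hn1 : n0 ≤ n := le_trans (le_max_left _ _) hn
    have hn2 : m ≤ n := le_trans (le_max_right _ _) hn
    have hq : 1 ≤ n / m := (Nat.one_le_div_iff (by omega)).2 hn2
    obtain ⟨D, c1, c2, c3, c4⟩ := Pool.Agent.H40.CR.Cell.cell_lower K hKv hcov h5 h6 θ hθ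
      (n / m) hq
    have h7 : ENNReal.ofReal (((n / m : ℕ) : ℝ) * v) ≤ Mn K θ n :=
      (c4.trans (le_Mn c1 c2 c3)).trans
        (Mn_le_of_le K θ (Nat.mul_pos hq (by omega)) (Nat.div_mul_le_self n m))
    rcases le_or_gt (v / m - ε) 0 with hneg | hpos
    · rw [ENNReal.ofReal_of_nonpos hneg]; exact bot_le
    · refine le_div_of (by omega) hpos.le (le_trans (ENNReal.ofReal_le_ofReal ?_) h7)
      have h8 : (n : ℝ) < ((n / m : ℕ) + 1 : ℝ) * m := by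
        have := Nat.lt_div_mul_add (a := n) (b := m) (by omega)
        have h9 : n < (n / m + 1) * m := by linarith
        exact_mod_cast h9
      have h10 : v ≤ ε * n := by
        have h11 : v / ε ≤ n := hn0.trans (by exact_mod_cast hn1)
        rwa [div_le_iff₀ (by positivity), mul_comm] at h11
      have h12 : v / m * n ≤ v / m * (((n / m : ℕ) + 1 : ℝ) * m) :=
        mul_le_mul_of_nonneg_left h8.le (by positivity)
      have h13 : v / m * (((n / m : ℕ) + 1 : ℝ) * m) = ((n / m : ℕ) : ℝ) * v + v := by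
        field_simp
      have h14 : (v / m - ε) * n = v / m * n - ε * n := by ring
      rw [h14]
      linarith
  have h15 : ENNReal.ofReal (v / m - ε) ≤ liminf (fun n : ℕ => Mn K θ n / n) atTop :=
    le_liminf_of_le (by isBoundedDefault) key
  calc ENNReal.ofReal (v / m) = ENNReal.ofReal ((v / m - ε) + ε) := by congr 1; ring
    _ ≤ ENNReal.ofReal (v / m - ε) + ENNReal.ofReal ε := ENNReal.ofReal_add_le
    _ ≤ _ := by
        rw [ENNReal.ofReal_coe_nnreal]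
        gcongr

/-- A bound for the covered parallelograms is an upper bound. -/
lemma limsup_le_cell {K : Set (ℝ × ℝ)} (hKc : IsCompact K) (hKv : Convex ℝ K)
    (h0 : (0 : ℝ × ℝ) ∈ K) {θ ρ : ℝ} (hθ : 0 ≤ θ) (hρ : 0 ≤ ρ)
    (hcell : Pool.Agent.H40.CR.Cell.CB K θ ρ) :
    limsup (fun n : ℕ => Mn K θ n / n) atTop ≤ ENNReal.ofReal ρ := by
  refine ENNReal.le_of_forall_pos_le_add ?_
  intro ε hε _
  obtain ⟨n0, hn0⟩ := Pool.Agent.H40.CR.Cell.cell_upper K hKc hKv h0 θ ρ hθ hρ hcell ε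
    (by exact_mod_cast hε)
  have hev : ∀ᶠ n : ℕ in atTop, Mn K θ n / n ≤ ENNReal.ofReal (ρ + ε) := by
    filter_upwards [eventually_ge_atTop (max n0 1)] with n hn
    have hn1 : n0 ≤ n := le_trans (le_max_left _ _) hn
    have hn2 : 1 ≤ n := le_trans (le_max_right _ _) hn
    apply div_le_of hn2 (by positivity)
    exact Mn_le (fun D h1 h2 h3 => hn0 n hn1 D h1 h2 h3)
  calc limsup (fun n : ℕ => Mn K θ n / n) atTop ≤ ENNReal.ofReal (ρ + ε) :=
        limsup_le_of_le (by isBoundedDefault) hev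
    _ = ENNReal.ofReal ρ + ε := by
        rw [ENNReal.ofReal_add hρ ε.coe_nonneg, ENNReal.ofReal_coe_nnreal]

lemma liminf_lt_top {K : Set (ℝ × ℝ)} (hKc : IsCompact K) (θ : ℝ) :
    liminf (fun n : ℕ => Mn K θ n / n) atTop < ⊤ := by
  have hV : volume (K + θ • K) < ⊤ := (hKc.add (hKc.smul θ)).measure_lt_top
  refine lt_of_le_of_lt ?_ hV
  have h1 : liminf (fun n : ℕ => Mn K θ n / n) atTop ≤
      liminf (fun _ : ℕ => volume (K + θ • K)) atTop := by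
    refine liminf_le_liminf ?_
    filter_upwards [eventually_ge_atTop 1] with n hn
    have hn0 : (n : ℝ≥0∞) ≠ 0 := by
      simp only [ne_eq, Nat.cast_eq_zero]; omega
    rw [ENNReal.div_le_iff hn0 (ENNReal.natCast_ne_top n), mul_comm]
    exact Mn_le_mul K θ n
  rwa [liminf_const] at h1

/-- The limit exists if `0 ∈ K`. -/
lemma exists_limit_aux {K : Set (ℝ × ℝ)} (hKc : IsCompact K) (hKv : Convex ℝ K)
    (h0 : (0 : ℝ × ℝ) ∈ K) {θ : ℝ} (hθ : 0 ≤ θ) : ∃ T : ℝ≥0∞, IsTheta K θ T := by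
  set L := liminf (fun n : ℕ => Mn K θ n / n) atTop with hL
  have hLtop : L ≠ ⊤ := (liminf_lt_top hKc θ).ne
  refine ⟨L, tendsto_of_le_liminf_of_limsup_le le_rfl ?_⟩
  rw [← ENNReal.ofReal_toReal hLtop]
  refine limsup_le_cell hKc hKv h0 hθ ENNReal.toReal_nonneg ?_
  intro m p d e κ κ' hcov h5 h6
  obtain ⟨hm, h1⟩ := cell_le hKv hθ hcov h5 h6
  have hm0 : (0 : ℝ) < m := by exact_mod_cast hm
  rw [← hL, ← ENNReal.ofReal_toReal hLtop, ENNReal.ofReal_le_ofReal_iff ENNReal.toReal_nonneg,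
    div_le_iff₀ hm0] at h1
  exact h1

/-- The set of the `θ` with `Θ(K, θ) = Θ(K, 0)` has a greatest element if `0 ∈ K`. -/
lemma exists_crit_aux {K : Set (ℝ × ℝ)} (hK : ConvexDomain K) (h0 : (0 : ℝ × ℝ) ∈ K)
    (hle : ∀ θ : ℝ, 0 ≤ θ → ∀ T : ℝ≥0∞, IsTheta K θ T → IsTheta K 0 T → θ ≤ 1 / 4) :
    ∃ c, IsCriticalRadius K c := by
  obtain ⟨hKc, hKv, hKi⟩ := hK
  obtain ⟨T₀, hT₀⟩ := exists_limit_aux hKc hKv h0 le_rfl
  have hfin : T₀ ≠ ⊤ := by
    have := liminf_lt_top hKc 0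
    rw [hT₀.liminf_eq] at this
    exact this.ne
  set A : Set ℝ := {θ : ℝ | 0 ≤ θ ∧ ∃ T : ℝ≥0∞, IsTheta K θ T ∧ IsTheta K 0 T} with hA
  have hA0 : (0 : ℝ) ∈ A := ⟨le_rfl, T₀, hT₀, hT₀⟩
  have hAb : BddAbove A := ⟨1 / 4, fun θ hθ => by
    obtain ⟨h1, T, h2, h3⟩ := hθ
    exact hle θ h1 T h2 h3⟩
  refine ⟨sSup A, ?_, fun θ hθ => le_csSup hAb hθ⟩
  have hc0 : 0 ≤ sSup A := le_csSup hAb hA0
  obtain ⟨T, hT⟩ := exists_limit_aux hKc hKv h0 hc0
  have hmono : T₀ ≤ T := le_of_tendsto_of_tendsto' hT₀ hT fun n =>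
    ENNReal.div_le_div_right (Mn_zero_le ⟨hKc, hKv, hKi⟩ _ n) _
  have hle2 : T ≤ T₀ := by
    rw [← hT.limsup_eq, ← ENNReal.ofReal_toReal hfin]
    refine limsup_le_cell hKc hKv h0 hc0 ENNReal.toReal_nonneg ?_
    intro m p d e κ κ' hcov h5 h6
    -- the values for `θ ∈ A` are bounded, now let `θ` tend to `sSup A`
    have h1 : ∀ θ ∈ A, |cr d e| + θ * |cr d (κ - κ')| ≤ T₀.toReal * m := by
      rintro θ ⟨hθ0, T', h2, h3⟩
      obtain ⟨hm, h4⟩ := cell_le hKv hθ0 hcov h5 h6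
      have hm0 : (0 : ℝ) < m := by exact_mod_cast hm
      rw [h2.liminf_eq, tendsto_nhds_unique h3 hT₀, ← ENNReal.ofReal_toReal hfin,
        ENNReal.ofReal_le_ofReal_iff ENNReal.toReal_nonneg, div_le_iff₀ hm0] at h4
      exact h4
    have hcl : sSup A ∈ closure A := csSup_mem_closure ⟨0, hA0⟩ hAb
    have hclosed : IsClosed {θ : ℝ | |cr d e| + θ * |cr d (κ - κ')| ≤ T₀.toReal * m} :=
      isClosed_le (by fun_prop) continuous_const
    exact closure_minimal (fun θ hθ => h1 θ hθ) hclosed hcl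
  rw [le_antisymm hle2 hmono] at hT
  exact ⟨hc0, T₀, hT, hT₀⟩

/-- Translation to `0 ∈ K`. -/
lemma exists_translate {K : Set (ℝ × ℝ)} (hK : ConvexDomain K) :
    ∃ K0 : Set (ℝ × ℝ), ConvexDomain K0 ∧ (0 : ℝ × ℝ) ∈ K0 ∧ ∀ θ T, IsTheta K θ T ↔ IsTheta K0 θ T := by
  obtain ⟨hKc, hKv, z0, hz0⟩ := hK
  set K0 : Set (ℝ × ℝ) := (fun z => z - z0) '' K with hK0
  have h1 : IsCompact K0 := hKc.image (by fun_prop)
  have h2 : Convex ℝ K0 := by
    rintro _ ⟨x, hx, rfl⟩ _ ⟨y, hy, rfl⟩ a b ha hb hab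
    refine ⟨a • x + b • y, hKv hx hy ha hb hab, ?_⟩
    have : z0 = a • z0 + b • z0 := by rw [← add_smul, hab, one_smul]
    calc a • x + b • y - z0 = a • x + b • y - (a • z0 + b • z0) := by rw [← this]
      _ = a • (x - z0) + b • (y - z0) := by rw [smul_sub, smul_sub]; abel
  have h3 : (0 : ℝ × ℝ) ∈ K0 := ⟨z0, interior_subset hz0, sub_self _⟩
  have h3i : (interior K0).Nonempty := by
    refine ⟨0, interior_maximal (image_mono interior_subset) ?_ ⟨z0, hz0, sub_self _⟩⟩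
    exact (Homeomorph.subRight z0).isOpenMap _ isOpen_interior
  refine ⟨K0, ⟨h1, h2, h3i⟩, h3, fun θ T => ?_⟩
  have e : (fun n : ℕ => Mn K θ n / n) = fun n : ℕ => Mn K0 θ n / n := by
    funext n
    congr 1
    refine le_antisymm (Mn_translate K z0 θ n) ?_
    have h4 := Mn_translate K0 (-z0) θ n
    have e2 : (fun z : ℝ × ℝ => z - -z0) '' K0 = K := by
      rw [hK0, image_image]
      simp
    rwa [e2] at h4
  unfold IsTheta
  rw [e]

/-- The limit `Θ(K, θ)` exists. -/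
theorem exists_limit {K : Set (ℝ × ℝ)} (hK : ConvexDomain K) {θ : ℝ} (hθ : 0 ≤ θ) :
    ∃ T : ℝ≥0∞, IsTheta K θ T := by
  obtain ⟨K0, h1, h2, h3⟩ := exists_translate hK
  obtain ⟨T, hT⟩ := exists_limit_aux h1.1 h1.2.1 h2 hθ
  exact ⟨T, (h3 θ T).2 hT⟩

lemma hexagon_domain : ConvexDomain hexagon := MaxCriticalRadius.hexagon_domain

lemma hex_mono {θ : ℝ} (h0 : 0 ≤ θ) (h1 : θ ≤ 1 / 4) (n : ℕ) : Mn hexagon θ n ≤ Mn hexagon (1 / 4) n := by
  apply Mn_le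
  intro D k1 k2 k3
  refine le_trans (measure_mono ?_) (le_Mn k1 k2 k3)
  rintro z ⟨d, hd, y, ⟨x, hx, rfl⟩, rfl⟩
  refine ⟨d, hd, θ • x, ⟨(4 * θ) • x, ?_, ?_⟩, rfl⟩
  · have h2 := hexagon_domain.2.1 MaxCriticalRadius.zero_mem_hexagon hx
      (by linarith : 0 ≤ 1 - 4 * θ) (by linarith : 0 ≤ 4 * θ) (by ring)
    rwa [smul_zero, zero_add] at h2
  · show (1 / 4 : ℝ) • (4 * θ) • x = θ • x
    rw [smul_smul]
    congr 1
    ring

/-- The parametric density of the affine-regular hexagon. -/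
theorem hex_theta {θ : ℝ} (hθ : 0 ≤ θ) :
    IsTheta hexagon θ (ENNReal.ofReal (max 3 (2 + 4 * θ))) := by
  obtain ⟨l0, l1⟩ := MaxCriticalRadius.hex_limits
  have e0 : liminf (fun n : ℕ => Mn hexagon 0 n / n) atTop = 3 := l0.liminf_eq
  have e1 : limsup (fun n : ℕ => Mn hexagon (1 / 4) n / n) atTop = 3 := l1.limsup_eq
  have low1 : (3 : ℝ≥0∞) ≤ liminf (fun n : ℕ => Mn hexagon θ n / n) atTop := by
    rw [← e0]
    refine liminf_le_liminf (Eventually.of_forall fun n => ?_)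
    exact ENNReal.div_le_div_right (Mn_zero_le hexagon_domain θ n) _
  have low2 : ENNReal.ofReal (2 + 4 * θ) ≤ liminf (fun n : ℕ => Mn hexagon θ n / n) atTop := by
    have h := le_liminf_of hexagon_domain (k := (-1, -1)) (d := (2, 1)) (e := (0, 1)) (κ := (0, 1))
      (κ' := (0, -1)) (by simp [hexagon]) (by norm_num [hexagon]) (by norm_num [hexagon])
      (by norm_num [hexagon]) (by norm_num [hexagon]) (by norm_num [hexagon]) hθ
    refine le_trans (le_of_eq ?_) h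
    congr 1
    norm_num [cr]
    ring
  have low : ENNReal.ofReal (max 3 (2 + 4 * θ)) ≤
      liminf (fun n : ℕ => Mn hexagon θ n / n) atTop := by
    rcases le_total 3 (2 + 4 * θ) with h | h
    · rw [max_eq_right h]; exact low2
    · rw [max_eq_left h]
      refine le_trans (le_of_eq ?_) low1
      norm_num
  have up : limsup (fun n : ℕ => Mn hexagon θ n / n) atTop ≤
      ENNReal.ofReal (max 3 (2 + 4 * θ)) := by
    rcases le_total θ (1 / 4) with h | h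
    · rw [max_eq_left (by linarith)]
      have e2 : ENNReal.ofReal 3 = 3 := by norm_num
      rw [e2, ← e1]
      refine limsup_le_limsup (Eventually.of_forall fun n => ?_)
      exact ENNReal.div_le_div_right (hex_mono hθ h n) _
    · rw [max_eq_right (by linarith)]
      refine ENNReal.le_of_forall_pos_le_add ?_
      intro ε hε _
      obtain ⟨n0, hn0⟩ := Pool.Agent.H40.CR.Hex.hex_upper θ h ε (by exact_mod_cast hε)
      have hev : ∀ᶠ n : ℕ in atTop, Mn hexagon θ n / n ≤ ENNReal.ofReal (2 + 4 * θ + ε) := by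
        filter_upwards [eventually_ge_atTop (max n0 1)] with n hn
        have hn1 : n0 ≤ n := le_trans (le_max_left _ _) hn
        have hn2 : 1 ≤ n := le_trans (le_max_right _ _) hn
        apply div_le_of hn2 (by positivity)
        exact Mn_le (fun D h1 h2 h3 => hn0 n hn1 D h1 h2 h3)
      calc limsup (fun n : ℕ => Mn hexagon θ n / n) atTop ≤ ENNReal.ofReal (2 + 4 * θ + ε) :=
            limsup_le_of_le (by isBoundedDefault) hev
        _ = ENNReal.ofReal (2 + 4 * θ) + ε := by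
            rw [ENNReal.ofReal_add (by linarith) ε.coe_nonneg, ENNReal.ofReal_coe_nnreal]
  exact tendsto_of_le_liminf_of_limsup_le low up

/-- The critical radius is at most `1 / 4`. -/
theorem crit_le {K : Set (ℝ × ℝ)} (hK : ConvexDomain K) {θ : ℝ} (hθ : 0 ≤ θ) {T : ℝ≥0∞}
    (h1 : IsTheta K θ T) (h2 : IsTheta K 0 T) : θ ≤ 1 / 4 := by
  obtain ⟨a1, a2, a3⟩ := ratio hK hθ
  rw [h1.liminf_eq, h2.limsup_eq] at a1
  rw [h1.liminf_eq] at a2
  rw [h2.limsup_eq] at a3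
  by_contra hcon
  push Not at hcon
  have h3 : 1 < ENNReal.ofReal ((2 + 4 * θ) / 3) := by
    rw [← ENNReal.ofReal_one, ENNReal.ofReal_lt_ofReal_iff (by positivity)]
    linarith
  have h4 : 1 * T < ENNReal.ofReal ((2 + 4 * θ) / 3) * T :=
    (ENNReal.mul_lt_mul_iff_left a2.ne' a3.ne).2 h3
  rw [one_mul] at h4
  exact absurd a1 (not_le.2 h4)

/-- Every convex domain has a critical radius. -/
theorem exists_crit {K : Set (ℝ × ℝ)} (hK : ConvexDomain K) :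
    ∃ c, IsCriticalRadius K c ∧ c ≤ 1 / 4 := by
  obtain ⟨K0, h1, h2, h3⟩ := exists_translate hK
  obtain ⟨c, hc⟩ := exists_crit_aux h1 h2 fun θ h0 T k1 k2 => crit_le h1 h0 k1 k2
  have e : {θ : ℝ | 0 ≤ θ ∧ ∃ T : ℝ≥0∞, IsTheta K θ T ∧ IsTheta K 0 T} =
      {θ : ℝ | 0 ≤ θ ∧ ∃ T : ℝ≥0∞, IsTheta K0 θ T ∧ IsTheta K0 0 T} := by
    simp only [h3]
  refine ⟨c, ?_, ?_⟩
  · unfold IsCriticalRadius
    rw [e]
    exact hc
  · obtain ⟨h4, T, h5, h6⟩ := hc.1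
    exact crit_le h1 h4 h5 h6

theorem hex_critical : IsCriticalRadius hexagon (1 / 4) := by
  refine ⟨⟨by norm_num, _, hex_theta (by norm_num), ?_⟩, ?_⟩
  · have h := hex_theta (θ := 0) le_rfl
    have e : max (3 : ℝ) (2 + 4 * (1 / 4)) = max 3 (2 + 4 * 0) := by norm_num
    rw [e]
    exact h
  · rintro θ ⟨h0, T, h1, h2⟩
    exact crit_le hexagon_domain h0 h1 h2

/-- (1) Q1: every convex domain `K` of the plane has a critical radius, and the largest critical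
radius is `1/4`; the affine-regular hexagon attains it. (2) For every convex domain `K` and every
`θ ≥ 0` the limit `Θ(K, θ)` exists, it is positive and finite, and
`Θ(K, θ) ≥ max 1 ((2 + 4 θ) / 3) Θ(K, 0)`. (3) The affine-regular hexagon `H` has
`Θ(H, θ) = max 3 (2 + 4 θ)` for every `θ ≥ 0`. (4) So for every `θ ≥ 0` the minimum of
`Θ(K, θ) / Θ(K, 0)` over all convex domains is `max 1 ((2 + 4 θ) / 3)`. (5) For every convex domain
`K` and `θ ≥ 0`, the supremum `σ` of the numbers `|det(d, e)| + θ |det(d, κ - κ')|` over the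
parallelograms with sides `d, e` in `K` and `κ, κ' ∈ K` is finite and satisfies
`((2 + 4 θ) / 3) Θ(K, 0) ≤ σ ≤ Θ(K, θ)`. -/
theorem result :
    ((∀ K : Set (ℝ × ℝ), ConvexDomain K → ∃ c, IsCriticalRadius K c) ∧
      IsGreatest {c : ℝ | ∃ K : Set (ℝ × ℝ), ConvexDomain K ∧ IsCriticalRadius K c} (1 / 4) ∧
      ConvexDomain hexagon ∧ IsCriticalRadius hexagon (1 / 4)) ∧
    (∀ K : Set (ℝ × ℝ), ConvexDomain K → ∀ θ : ℝ, 0 ≤ θ → ∃ T T₀ : ℝ≥0∞,
      IsTheta K θ T ∧ IsTheta K 0 T₀ ∧ 0 < T₀ ∧ T < ⊤ ∧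
        ENNReal.ofReal (max 1 ((2 + 4 * θ) / 3)) * T₀ ≤ T) ∧
    (∀ θ : ℝ, 0 ≤ θ → IsTheta hexagon θ (ENNReal.ofReal (max 3 (2 + 4 * θ)))) ∧
    (∀ θ : ℝ, 0 ≤ θ → IsLeast {ρ : ℝ≥0∞ | ∃ (K : Set (ℝ × ℝ)) (T T₀ : ℝ≥0∞), ConvexDomain K ∧
      IsTheta K θ T ∧ IsTheta K 0 T₀ ∧ ρ = T / T₀} (ENNReal.ofReal (max 1 ((2 + 4 * θ) / 3)))) ∧
    (∀ (K : Set (ℝ × ℝ)) (θ : ℝ) (T T₀ : ℝ≥0∞), ConvexDomain K → 0 ≤ θ → IsTheta K θ T →
      IsTheta K 0 T₀ → BddAbove (stripValues K θ) ∧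
        ENNReal.ofReal ((2 + 4 * θ) / 3) * T₀ ≤ ENNReal.ofReal (sSup (stripValues K θ)) ∧
        ENNReal.ofReal (sSup (stripValues K θ)) ≤ T) := by
  have two : ∀ (K : Set (ℝ × ℝ)) (T T₀ : ℝ≥0∞) (θ : ℝ), ConvexDomain K → 0 ≤ θ →
      IsTheta K θ T → IsTheta K 0 T₀ →
      ENNReal.ofReal (max 1 ((2 + 4 * θ) / 3)) * T₀ ≤ T := by
    intro K T T₀ θ hK hθ h1 h2
    rcases le_total 1 ((2 + 4 * θ) / 3) with h | h
    · rw [max_eq_right h]
      have h3 := (ratio hK hθ).1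
      rwa [h1.liminf_eq, h2.limsup_eq] at h3
    · rw [max_eq_left h, ENNReal.ofReal_one, one_mul]
      exact le_of_tendsto_of_tendsto' h2 h1 fun n => ENNReal.div_le_div_right (Mn_zero_le hK θ n) _
  refine ⟨⟨fun K hK => (exists_crit hK).imp fun _ h => h.1,
      ⟨⟨hexagon, hexagon_domain, hex_critical⟩, ?_⟩, hexagon_domain, hex_critical⟩,
    fun K hK θ hθ => ?_, fun θ hθ => hex_theta hθ, fun θ hθ => ⟨?_, ?_⟩, ?_⟩
  · rintro c ⟨K, hK, ⟨h0, T, h1, h2⟩, -⟩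
    exact crit_le hK h0 h1 h2
  · obtain ⟨T, hT⟩ := exists_limit hK hθ
    obtain ⟨T₀, hT₀⟩ := exists_limit hK le_rfl
    refine ⟨T, T₀, hT, hT₀, ?_, ?_, two K T T₀ θ hK hθ hT hT₀⟩
    · have h4 := (ratio hK le_rfl).2.1
      rwa [hT₀.liminf_eq] at h4
    · have h4 := liminf_lt_top hK.1 θ
      rwa [hT.liminf_eq] at h4
  · refine ⟨hexagon, _, _, hexagon_domain, hex_theta hθ, hex_theta le_rfl, ?_⟩
    rw [← ENNReal.ofReal_div_of_pos (by positivity)]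
    congr 1
    rcases le_total 3 (2 + 4 * θ) with h | h
    · rw [max_eq_right h, max_eq_right (by linarith)]; norm_num
    · rw [max_eq_left h, max_eq_left (by linarith)]; norm_num
  · rintro ρ ⟨K, T, T₀, hK, h1, h2, rfl⟩
    have h3 := two K T T₀ θ hK hθ h1 h2
    have h4 := (ratio hK le_rfl).2.1
    have h5 := (ratio hK (θ := 0) le_rfl).2.2
    rw [h2.liminf_eq] at h4
    rw [h2.limsup_eq] at h5
    rw [ENNReal.le_div_iff_mul_le (Or.inl h4.ne') (Or.inl h5.ne)]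
    exact h3
  · intro K θ T T₀ hK hθ h1 h2
    obtain ⟨h3, -, h4, h5⟩ := sandwich hK hθ
    rw [h2.limsup_eq] at h4
    rw [h1.liminf_eq] at h5
    exact ⟨h3, h4, h5⟩

end Pool.Agent.Results.MP_eb03ca_co.SharpParametricRatio
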